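import Pool.Agent.BEW.StmtsS

set_option autoImplicit false

/-!
# BEW, row NUF: the measure `nu`
-/

namespace Pool.Agent.BEW.H77

open Set Filter Topology MeasureTheory
open scoped ENNReal NNReal
open Pool.Agent.BEW

theorem nuf_meas (d : ℕ) (β : ℝ) :
    Measurable fun r : ℝ => ENNReal.ofReal ((r / β) ^ (d - 1)) :=
  ((measurable_id.div_const β).pow_const (d - 1)).ennreal_ofReal

theorem nuf_univ (d : ℕ) (β : ℝ) (hβ : 0 < β) :
    nu d β univ ≤ ENNReal.ofReal (((β + Real.pi) / β) ^ (d - 1) * Real.pi) := by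
  have hpi := Real.pi_pos
  unfold nu
  rw [withDensity_apply _ MeasurableSet.univ, Measure.restrict_univ]
  have h1 : ∫⁻ r in Ioo β (β + Real.pi), ENNReal.ofReal ((r / β) ^ (d - 1)) ≤
      ∫⁻ _ in Ioo β (β + Real.pi), ENNReal.ofReal (((β + Real.pi) / β) ^ (d - 1)) := by
    refine setLIntegral_mono' measurableSet_Ioo fun r hr => ?_
    refine ENNReal.ofReal_le_ofReal (pow_le_pow_left₀ ?_ ?_ _)
    · exact div_nonneg (hβ.trans hr.1).le hβ.le
    · exact div_le_div_of_nonneg_right hr.2.le hβ.le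
  refine h1.trans ?_
  rw [setLIntegral_const, Real.volume_Ioo, add_sub_cancel_left, ENNReal.ofReal_mul (by positivity)]

/-- **NUF** -/
theorem nuf : NufStmt := by
  intro d β hβ
  have hpi := Real.pi_pos
  have hpos : ∀ r ∈ Ioo β (β + Real.pi), 0 < (r / β) ^ (d - 1) := fun r hr =>
    pow_pos (div_pos (hβ.trans hr.1) hβ) _
  refine ⟨⟨(nuf_univ d β hβ).trans_lt ENNReal.ofReal_lt_top⟩, fun h1 => ?_, ?_, fun A => ?_,
    fun f => ?_⟩
  · have h2 : (nu d β).real univ ≤ ((β + Real.pi) / β) ^ (d - 1) * Real.pi := by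
      rw [Measure.real]
      exact ENNReal.toReal_le_of_le_ofReal (by positivity) (nuf_univ d β hβ)
    have hpi4 : Real.pi ≤ 4 := Real.pi_le_four
    have h3 : (β + Real.pi) / β ≤ 5 := by
      rw [div_le_iff₀ hβ]
      nlinarith
    have h4 : ((β + Real.pi) / β) ^ (d - 1) ≤ 5 ^ (d - 1) :=
      pow_le_pow_left₀ (by positivity) h3 _
    have h5 : (5 : ℝ) ^ (d - 1) ≤ 5 ^ d := pow_le_pow_right₀ (by norm_num) (Nat.sub_le d 1)
    calc (nu d β).real univ ≤ ((β + Real.pi) / β) ^ (d - 1) * Real.pi := h2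
      _ ≤ 5 ^ d * 4 := mul_le_mul (h4.trans h5) hpi4 hpi.le (by positivity)
      _ = 4 * 5 ^ d := by ring
  · exact (withDensity_absolutelyContinuous _ _).ae_le (ae_restrict_mem measurableSet_Ioo)
  · unfold nu
    rw [withDensity_apply_eq_zero' (nuf_meas d β).aemeasurable,
      Measure.restrict_apply' measurableSet_Ioo]
    have h2 : {x : ℝ | ENNReal.ofReal ((x / β) ^ (d - 1)) ≠ 0} ∩ A ∩ Ioo β (β + Real.pi) =
        A ∩ Ioo β (β + Real.pi) := by
      ext x
      constructor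
      · rintro ⟨⟨-, h3⟩, h4⟩
        exact ⟨h3, h4⟩
      · rintro ⟨h3, h4⟩
        refine ⟨⟨?_, h3⟩, h4⟩
        exact (ENNReal.ofReal_pos.2 (hpos x h4)).ne'
    rw [h2]
  · unfold nu
    rw [integral_withDensity_eq_integral_toReal_smul (nuf_meas d β)
      (Filter.Eventually.of_forall fun r => ENNReal.ofReal_lt_top)]
    refine setIntegral_congr_fun measurableSet_Ioo fun r hr => ?_
    show (ENNReal.ofReal ((r / β) ^ (d - 1))).toReal • f r = f r * (r / β) ^ (d - 1)
    rw [ENNReal.toReal_ofReal (hpos r hr).le, smul_eq_mul, mul_comm]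

end Pool.Agent.BEW.H77
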